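import Pool.Agent.Helper54.SRD.Basic
import Pool.Agent.Helper54.SRD.Goals

/-!
# MP_d08e19_gt: packet SRD-DBR
-/

open Set Filter MeasureTheory
open scoped Manifold ContDiff Topology

noncomputable section

set_option maxSynthPendingDepth 3
set_option synthInstance.maxSize 1000

namespace Pool.Agent.Helper97.SRD

open Pool.Agent.Helper54.SRD

/-- A Lipschitz curve is the integral of its (bounded) a.e. derivative. -/
theorem eq_integral_of_lipschitz {F : Type*} [NormedAddCommGroup F] [NormedSpace ℝ F]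
    [CompleteSpace F] {β T : ℝ → F} {a b : ℝ} {K : NNReal} {C : ℝ} (hab : a < b)
    (hβ : LipschitzOnWith K β (Icc a b)) (hTi : IntervalIntegrable T volume a b)
    (hTb : ∀ t ∈ Ioo a b, ‖T t‖ ≤ C)
    (hae : ∀ᵐ t, t ∈ Ioo a b → HasDerivAt β (T t) t) :
    ∀ x ∈ Icc a b, β x = β a + ∫ s in a..x, T s := by
  have hC : 0 ≤ C := (norm_nonneg _).trans (hTb ((a + b) / 2) ⟨by linarith, by linarith⟩)
  have hsub : ∀ x y, x ∈ Icc a b → y ∈ Icc a b → IntervalIntegrable T volume x y := by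
    intro x y hx hy
    refine hTi.mono_set ?_
    rw [uIcc_of_le hab.le]
    exact uIcc_subset_Icc hx hy
  have hae' : ∀ᵐ t : ℝ, t ≠ b := by
    have : ({b} : Set ℝ)ᶜ ∈ ae (volume : Measure ℝ) := compl_mem_ae_iff.2 (by simp)
    filter_upwards [this] with t ht using ht
  have hae'' : ∀ᵐ t : ℝ, t ≠ a := by
    have : ({a} : Set ℝ)ᶜ ∈ ae (volume : Measure ℝ) := compl_mem_ae_iff.2 (by simp)
    filter_upwards [this] with t ht using ht
  have hL : LipschitzOnWith (Real.toNNReal C) (fun x => ∫ s in a..x, T s) (Icc a b) := by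
    refine LipschitzOnWith.of_dist_le_mul ?_
    intro x hx y hy
    rw [dist_eq_norm, Real.coe_toNNReal _ hC]
    have h1 : (∫ s in a..x, T s) - ∫ s in a..y, T s = ∫ s in y..x, T s := by
      rw [intervalIntegral.integral_interval_sub_left]
      · exact hsub _ _ (left_mem_Icc.2 hab.le) hx
      · exact hsub _ _ (left_mem_Icc.2 hab.le) hy
    rw [h1, Real.dist_eq]
    refine intervalIntegral.norm_integral_le_of_norm_le_const_ae ?_
    filter_upwards [hae', hae''] with t ht1 ht2 ht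
    refine hTb t ?_
    have h2 := uIoc_subset_uIcc ht
    have h3 := uIcc_subset_Icc hy hx h2
    exact ⟨lt_of_le_of_ne h3.1 (Ne.symm ht2), lt_of_le_of_ne h3.2 ht1⟩
  have hac1 : AbsolutelyContinuousOnInterval β a b := by
    refine LipschitzOnWith.absolutelyContinuousOnInterval (K := K) ?_
    rw [uIcc_of_le hab.le]; exact hβ
  have hac2 : AbsolutelyContinuousOnInterval (fun x => ∫ s in a..x, T s) a b := by
    refine LipschitzOnWith.absolutelyContinuousOnInterval (K := Real.toNNReal C) ?_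
    rw [uIcc_of_le hab.le]; exact hL
  have hac := hac1.sub hac2
  have h0 : ∀ᵐ x, x ∈ uIcc a b → HasDerivAt (β - fun x => ∫ s in a..x, T s) 0 x := by
    filter_upwards [hae, hae', hae'', hTi.ae_hasDerivAt_integral] with t h1 h2 h3 h4 h5
    rw [uIcc_of_le hab.le] at h5
    have h6 := h1 ⟨lt_of_le_of_ne h5.1 (Ne.symm h3), lt_of_le_of_ne h5.2 h2⟩
    have h7 := h4 (by rw [uIcc_of_le hab.le]; exact h5) a left_mem_uIcc
    have h8 := h6.sub h7
    rwa [sub_self] at h8
  obtain ⟨c, hc⟩ := hac.const_of_ae_hasDerivAt_zero h0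
  intro x hx
  rw [uIcc_of_le hab.le] at hc
  have h1 := hc a (left_mem_Icc.2 hab.le)
  have h2 := hc x hx
  simp only [Pi.sub_apply, intervalIntegral.integral_same, sub_zero] at h1 h2
  rw [h1, ← h2]
  abel

/-- A positive definite form on a finite dimensional space is an isomorphism to the dual. -/
theorem exists_equiv_of_isPD {E : Type*} [NormedAddCommGroup E] [NormedSpace ℝ E]
    [FiniteDimensional ℝ E] {B : Bil E} (hB : IsPD B) :
    ∃ e : E ≃L[ℝ] (E →L[ℝ] ℝ), (e : E →L[ℝ] (E →L[ℝ] ℝ)) = B := by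
  have hinj : Function.Injective (B : E →ₗ[ℝ] (E →L[ℝ] ℝ)) := by
    rw [← LinearMap.ker_eq_bot, LinearMap.ker_eq_bot']
    intro u hu
    by_contra hne
    have h1 := hB.2 u hne
    have h2 : B u = 0 := hu
    rw [h2] at h1
    simp at h1
  have hdim : Module.finrank ℝ E = Module.finrank ℝ (E →L[ℝ] ℝ) := by
    rw [← (LinearMap.toContinuousLinearMap : (E →ₗ[ℝ] ℝ) ≃ₗ[ℝ] (E →L[ℝ] ℝ)).finrank_eq]
    exact (Subspace.dual_finrank_eq (K := ℝ) (V := E)).symm
  refine ⟨(LinearMap.linearEquivOfInjective (B : E →ₗ[ℝ] (E →L[ℝ] ℝ)) hinj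
    hdim).toContinuousLinearEquiv, ?_⟩
  ext u v
  rfl

theorem intervalIntegrable_of_bound' {F : Type*} [NormedAddCommGroup F] [NormedSpace ℝ F]
    {g : ℝ → F} {a b C : ℝ} (hab : a < b)
    (hm : AEStronglyMeasurable g (volume.restrict (Ioo a b)))
    (hb : ∀ t ∈ Ioo a b, ‖g t‖ ≤ C) : IntervalIntegrable g volume a b := by
  rw [intervalIntegrable_iff_integrableOn_Ioo_of_le hab.le]
  refine Integrable.of_bound hm C ?_
  exact (ae_restrict_iff' measurableSet_Ioo).2 (Eventually.of_forall hb)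

/-- The primitive of a bounded function is Lipschitz. -/
theorem lipschitz_primitive {F : Type*} [NormedAddCommGroup F] [NormedSpace ℝ F]
    [CompleteSpace F] {T : ℝ → F} {a b : ℝ} {C : ℝ} (hab : a < b)
    (hTi : IntervalIntegrable T volume a b)
    (hTb : ∀ t ∈ Ioo a b, ‖T t‖ ≤ C) :
    ∀ x ∈ Icc a b, ∀ y ∈ Icc a b,
      ‖(∫ s in a..x, T s) - ∫ s in a..y, T s‖ ≤ C * |x - y| := by
  have hsub : ∀ x y, x ∈ Icc a b → y ∈ Icc a b → IntervalIntegrable T volume x y := by
    intro x y hx hy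
    refine hTi.mono_set ?_
    rw [uIcc_of_le hab.le]
    exact uIcc_subset_Icc hx hy
  have hae' : ∀ᵐ t : ℝ, t ≠ b := by
    have : ({b} : Set ℝ)ᶜ ∈ ae (volume : Measure ℝ) := compl_mem_ae_iff.2 (by simp)
    filter_upwards [this] with t ht using ht
  have hae'' : ∀ᵐ t : ℝ, t ≠ a := by
    have : ({a} : Set ℝ)ᶜ ∈ ae (volume : Measure ℝ) := compl_mem_ae_iff.2 (by simp)
    filter_upwards [this] with t ht using ht
  intro x hx y hy
  have h1 : (∫ s in a..x, T s) - ∫ s in a..y, T s = ∫ s in y..x, T s := by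
    rw [intervalIntegral.integral_interval_sub_left]
    · exact hsub _ _ (left_mem_Icc.2 hab.le) hx
    · exact hsub _ _ (left_mem_Icc.2 hab.le) hy
  rw [h1]
  refine intervalIntegral.norm_integral_le_of_norm_le_const_ae ?_
  filter_upwards [hae', hae''] with t ht1 ht2 ht
  refine hTb t ?_
  have h2 := uIoc_subset_uIcc ht
  have h3 := uIcc_subset_Icc hy hx h2
  exact ⟨lt_of_le_of_ne h3.1 (Ne.symm ht2), lt_of_le_of_ne h3.2 ht1⟩

/-- Integration by parts against a smooth test field. -/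
theorem ibp {E : Type*} [NormedAddCommGroup E] [NormedSpace ℝ E]
    [FiniteDimensional ℝ E] {f : ℝ → E →L[ℝ] ℝ} {a b C : ℝ} (hab : a < b)
    (hfm : AEStronglyMeasurable f (volume.restrict (Ioo a b)))
    (hfb : ∀ t ∈ Ioo a b, ‖f t‖ ≤ C) (V : ℝ → E) (hV : ContDiff ℝ ∞ V)
    (hVc : HasCompactSupport V) (hVs : tsupport V ⊆ Ioo a b) :
    IntervalIntegrable (fun t => f t (V t)) volume a b ∧
    IntervalIntegrable (fun t => (∫ s in a..t, f s) (deriv V t)) volume a b ∧
    ∫ t in a..b, (f t (V t) + (∫ s in a..t, f s) (deriv V t)) = 0 := by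
  have hC : 0 ≤ C := (norm_nonneg _).trans (hfb ((a + b) / 2) ⟨by linarith, by linarith⟩)
  have hfi := intervalIntegrable_of_bound' hab hfm hfb
  have hLF := lipschitz_primitive hab hfi hfb
  set F : ℝ → E →L[ℝ] ℝ := fun x => ∫ s in a..x, f s with hF
  have hFa : F a = 0 := by simp [hF]
  obtain ⟨MV, hMV⟩ := hVc.exists_bound_of_continuous hV.continuous
  have hV' : Continuous (deriv V) := hV.continuous_deriv (by simp)
  obtain ⟨MD, hMD⟩ := (hVc.deriv).exists_bound_of_continuous hV'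
  have hMV0 : 0 ≤ MV := (norm_nonneg _).trans (hMV 0)
  have hMD0 : 0 ≤ MD := (norm_nonneg _).trans (hMD 0)
  have hFbd : ∀ t ∈ Icc a b, ‖F t‖ ≤ C * (b - a) := by
    intro t ht
    have h1 := hLF t ht a (left_mem_Icc.2 hab.le)
    simp only [intervalIntegral.integral_same, sub_zero] at h1
    refine h1.trans ?_
    rw [abs_of_nonneg (by linarith [ht.1])]
    exact mul_le_mul_of_nonneg_left (by linarith [ht.2]) hC
  have hVl : ∀ x y, ‖V x - V y‖ ≤ MD * |x - y| := by
    intro x y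
    have := Convex.norm_image_sub_le_of_norm_deriv_le (f := V) (s := univ) (C := MD)
      (fun z _ => (hV.differentiable (by simp)) z) (fun z _ => hMD z) convex_univ
      (mem_univ y) (mem_univ x)
    rwa [Real.norm_eq_abs] at this
  have hFc : ContinuousOn F (Icc a b) := by
    have : LipschitzOnWith (Real.toNNReal C) F (Icc a b) := by
      refine LipschitzOnWith.of_dist_le_mul ?_
      intro x hx y hy
      rw [dist_eq_norm, Real.coe_toNNReal _ hC, Real.dist_eq]
      exact hLF x hx y hy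
    exact this.continuousOn
  have hm1 : AEStronglyMeasurable (fun t => f t (V t)) (volume.restrict (Ioo a b)) :=
    isBoundedBilinearMap_apply.continuous.comp_aestronglyMeasurable
      (hfm.prodMk hV.continuous.aestronglyMeasurable)
  have hm2 : AEStronglyMeasurable (fun t => F t (deriv V t)) (volume.restrict (Ioo a b)) :=
    ContinuousOn.aestronglyMeasurable
      ((hFc.mono Ioo_subset_Icc_self).clm_apply hV'.continuousOn) measurableSet_Ioo
  have hb1 : ∀ t ∈ Ioo a b, ‖f t (V t)‖ ≤ C * MV := by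
    intro t ht
    refine ((f t).le_opNorm _).trans ?_
    exact mul_le_mul (hfb t ht) (hMV t) (norm_nonneg _) hC
  have hb2 : ∀ t ∈ Ioo a b, ‖F t (deriv V t)‖ ≤ C * (b - a) * MD := by
    intro t ht
    refine ((F t).le_opNorm _).trans ?_
    exact mul_le_mul (hFbd t (Ioo_subset_Icc_self ht)) (hMD t) (norm_nonneg _)
      (mul_nonneg hC (by linarith))
  have hi1 := intervalIntegrable_of_bound' hab hm1 hb1
  have hi2 := intervalIntegrable_of_bound' hab hm2 hb2
  refine ⟨hi1, hi2, ?_⟩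
  have hVz : ∀ t, t ∉ Ioo a b → V t = 0 := fun t ht =>
    image_eq_zero_of_notMem_tsupport (fun h => ht (hVs h))
  have key := eq_integral_of_lipschitz (β := fun t => F t (V t))
    (T := fun t => f t (V t) + F t (deriv V t)) (a := a) (b := b)
    (K := Real.toNNReal (C * MV + C * (b - a) * MD))
    (C := C * MV + C * (b - a) * MD) hab ?_ (hi1.add hi2) ?_ ?_ b (right_mem_Icc.2 hab.le)
  · simp only [hVz a (by simp), hVz b (by simp), map_zero, zero_add] at key
    exact key.symm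
  · refine LipschitzOnWith.of_dist_le_mul ?_
    intro x hx y hy
    rw [dist_eq_norm, Real.coe_toNNReal _
      (add_nonneg (mul_nonneg hC hMV0) (mul_nonneg (mul_nonneg hC (by linarith)) hMD0)),
      Real.dist_eq]
    have h1 : F x (V x) - F y (V y) = (F x - F y) (V x) + F y (V x - V y) := by
      simp
    rw [h1]
    refine (norm_add_le _ _).trans ?_
    have h2 : ‖(F x - F y) (V x)‖ ≤ C * |x - y| * MV :=
      ((F x - F y).le_opNorm _).trans
        (mul_le_mul (hLF x hx y hy) (hMV x) (norm_nonneg _) (mul_nonneg hC (abs_nonneg _)))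
    have h3 : ‖F y (V x - V y)‖ ≤ C * (b - a) * (MD * |x - y|) :=
      ((F y).le_opNorm _).trans
        (mul_le_mul (hFbd y hy) (hVl x y) (norm_nonneg _) (mul_nonneg hC (by linarith)))
    linarith
  · intro t ht
    exact (norm_add_le _ _).trans (add_le_add (hb1 t ht) (hb2 t ht))
  · filter_upwards [hfi.ae_hasDerivAt_integral] with t h1 ht
    have h2 := h1 (by rw [uIcc_of_le hab.le]; exact Ioo_subset_Icc_self ht) a left_mem_uIcc
    exact h2.clm_apply ((hV.differentiable (by simp)) t).hasDerivAt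

theorem continuous_psi (E : Type*) [NormedAddCommGroup E] [NormedSpace ℝ E] :
    Continuous (fun p : (E →L[ℝ] E →L[ℝ] E →L[ℝ] ℝ) × E => (p.1.flip p.2).flip p.2) := by
  have h1 : Continuous (fun p : (E →L[ℝ] E →L[ℝ] E →L[ℝ] ℝ) × E => p.1.flip) :=
    (ContinuousLinearMap.flipₗᵢ ℝ E E (E →L[ℝ] ℝ)).continuous.comp continuous_fst
  have h2 : Continuous (fun p : (E →L[ℝ] E →L[ℝ] E →L[ℝ] ℝ) × E => p.1.flip p.2) :=
    h1.clm_apply continuous_snd
  have h3 : Continuous (fun p : (E →L[ℝ] E →L[ℝ] E →L[ℝ] ℝ) × E => (p.1.flip p.2).flip) :=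
    (ContinuousLinearMap.flipₗᵢ ℝ E E ℝ).continuous.comp h2
  exact h3.clm_apply continuous_snd

/-- From the weak Euler-Lagrange equation to the first integral. -/
theorem db_step {E : Type*} [NormedAddCommGroup E] [NormedSpace ℝ E] [FiniteDimensional ℝ E]
    (hDB1 : S_DB1 E) {a b C C' : ℝ} (hab : a < b) {f P : ℝ → E →L[ℝ] ℝ}
    (hfm : AEStronglyMeasurable f (volume.restrict (Ioo a b)))
    (hfb : ∀ t ∈ Ioo a b, ‖f t‖ ≤ C)
    (hPm : AEStronglyMeasurable P (volume.restrict (Ioo a b)))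
    (hPb : ∀ t ∈ Ioo a b, ‖P t‖ ≤ C')
    (hcrit : ∀ V : ℝ → E, ContDiff ℝ ∞ V → HasCompactSupport V → tsupport V ⊆ Ioo a b →
      ∫ t in a..b, (f t (V t) + P t (deriv V t)) = 0) :
    ContinuousOn (fun t => ∫ s in a..t, f s) (Icc a b) ∧
    ∃ c : E →L[ℝ] ℝ, ∀ᵐ t, t ∈ Ioo a b → P t = (∫ s in a..t, f s) + c := by
  have hC : 0 ≤ C := (norm_nonneg _).trans (hfb ((a + b) / 2) ⟨by linarith, by linarith⟩)
  have hC' : 0 ≤ C' := (norm_nonneg _).trans (hPb ((a + b) / 2) ⟨by linarith, by linarith⟩)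
  have hfi := intervalIntegrable_of_bound' hab hfm hfb
  have hLF := lipschitz_primitive hab hfi hfb
  have hFc : ContinuousOn (fun t => ∫ s in a..t, f s) (Icc a b) := by
    have : LipschitzOnWith (Real.toNNReal C) (fun t => ∫ s in a..t, f s) (Icc a b) := by
      refine LipschitzOnWith.of_dist_le_mul ?_
      intro x hx y hy
      rw [dist_eq_norm, Real.coe_toNNReal _ hC, Real.dist_eq]
      exact hLF x hx y hy
    exact this.continuousOn
  refine ⟨hFc, ?_⟩
  have hFb : ∀ t ∈ Icc a b, ‖∫ s in a..t, f s‖ ≤ C * (b - a) := by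
    intro t ht
    have h1 := hLF t ht a (left_mem_Icc.2 hab.le)
    simp only [intervalIntegral.integral_same, sub_zero] at h1
    refine h1.trans ?_
    rw [abs_of_nonneg (by linarith [ht.1])]
    exact mul_le_mul_of_nonneg_left (by linarith [ht.2]) hC
  have hmP : AEStronglyMeasurable (fun t => P t - ∫ s in a..t, f s)
      (volume.restrict (Ioo a b)) :=
    hPm.sub ((hFc.mono Ioo_subset_Icc_self).aestronglyMeasurable measurableSet_Ioo)
  obtain ⟨c, hc⟩ := hDB1 a b (fun t => P t - ∫ s in a..t, f s)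
    (C' + C * (b - a)) hab hmP
    (by
      intro t ht
      exact (norm_sub_le _ _).trans (add_le_add (hPb t ht) (hFb t (Ioo_subset_Icc_self ht))))
    (by
      intro V hV hVc hVs
      obtain ⟨i1, i2, i3⟩ := ibp hab hfm hfb V hV hVc hVs
      have j := hcrit V hV hVc hVs
      have hV' : Continuous (deriv V) := hV.continuous_deriv (by simp)
      obtain ⟨MD, hMD⟩ := (hVc.deriv).exists_bound_of_continuous hV'
      have i4 : IntervalIntegrable (fun t => P t (deriv V t)) volume a b := by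
        refine intervalIntegrable_of_bound' (C := C' * MD) hab ?_ ?_
        · exact isBoundedBilinearMap_apply.continuous.comp_aestronglyMeasurable
            (hPm.prodMk hV'.aestronglyMeasurable)
        · intro t ht
          exact ((P t).le_opNorm _).trans
            (mul_le_mul (hPb t ht) (hMD t) (norm_nonneg _) hC')
      have e1 : (fun t => (P t - ∫ s in a..t, f s) (deriv V t))
          = fun t => (f t (V t) + P t (deriv V t))
            - (f t (V t) + (∫ s in a..t, f s) (deriv V t)) := by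
        funext t
        simp only [sub_apply]
        ring
      rw [e1, intervalIntegral.integral_sub (i1.add i4) (i1.add i2), j, i3, sub_zero])
  refine ⟨c, ?_⟩
  have h1 := (ae_restrict_iff' measurableSet_Ioo).1 hc
  filter_upwards [h1] with t ht htt
  rw [← ht htt]
  abel

/-- From the first integral to `C^1`. -/
theorem c1_step {E : Type*} [NormedAddCommGroup E] [NormedSpace ℝ E] [FiniteDimensional ℝ E]
    {a b : ℝ} (hab : a < b) {B : ℝ → Bil E} {β : ℝ → E} {K : NNReal}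
    (hβ : LipschitzOnWith K β (Icc a b))
    (hB : ContinuousOn B (Icc a b)) (hPD : ∀ t ∈ Icc a b, IsPD (B t))
    {Q : ℝ → E →L[ℝ] ℝ} (hQ : ContinuousOn Q (Icc a b))
    (hae : ∀ᵐ t, t ∈ Ioo a b → B t (deriv β t) = Q t) :
    ContinuousOn (fun t => ContinuousLinearMap.inverse (B t) (Q t)) (Icc a b) ∧
    (∀ t ∈ Icc a b, B t (ContinuousLinearMap.inverse (B t) (Q t)) = Q t) ∧
    ∀ t ∈ Ioo a b, HasDerivAt β (ContinuousLinearMap.inverse (B t) (Q t)) t := by
  have hinv : ∀ t ∈ Icc a b, ∃ e : E ≃L[ℝ] (E →L[ℝ] ℝ),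
      (e : E →L[ℝ] (E →L[ℝ] ℝ)) = B t := fun t ht => exists_equiv_of_isPD (hPD _ ht)
  have hTG : ∀ t ∈ Icc a b, B t (ContinuousLinearMap.inverse (B t) (Q t)) = Q t := by
    intro t ht
    obtain ⟨e, he⟩ := hinv t ht
    rw [← he, ContinuousLinearMap.inverse_equiv]
    simp
  have hTinv : ∀ t ∈ Icc a b, ∀ u, B t u = Q t →
      ContinuousLinearMap.inverse (B t) (Q t) = u := by
    intro t ht u hu
    obtain ⟨e, he⟩ := hinv t ht
    rw [← hu, ← he, ContinuousLinearMap.inverse_equiv]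
    simp
  have hTc : ContinuousOn (fun t => ContinuousLinearMap.inverse (B t) (Q t)) (Icc a b) := by
    have h1 : ContinuousOn (fun t => ContinuousLinearMap.inverse (B t)) (Icc a b) := by
      intro t ht
      obtain ⟨e, he⟩ := hinv t ht
      have h2 : ContinuousAt (ContinuousLinearMap.inverse (R := ℝ) (M := E)
          (M₂ := E →L[ℝ] ℝ)) (B t) := by
        rw [← he]
        exact (contDiffAt_map_inverse (n := 0) e).continuousAt
      exact h2.comp_continuousWithinAt (hB t ht)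
    exact h1.clm_apply hQ
  refine ⟨hTc, hTG, ?_⟩
  generalize hT : (fun t => ContinuousLinearMap.inverse (B t) (Q t)) = T at hTc
  have hT' : ∀ t, ContinuousLinearMap.inverse (B t) (Q t) = T t := fun t => congrFun hT t
  simp only [hT'] at hTinv hTG ⊢
  have hTae : ∀ᵐ t, t ∈ Ioo a b → T t = deriv β t := by
    filter_upwards [hae] with t ht htt
    exact hTinv t (Ioo_subset_Icc_self htt) _ (ht htt)
  have hdb : ∀ t ∈ Ioo a b, ‖deriv β t‖ ≤ K := fun t ht =>
    norm_deriv_le_of_lipschitzOn (Icc_mem_nhds ht.1 ht.2) hβ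
  have hdm : AEStronglyMeasurable (deriv β) (volume.restrict (Ioo a b)) :=
    (stronglyMeasurable_deriv β).aestronglyMeasurable
  have hβae : ∀ᵐ t, t ∈ Ioo a b → HasDerivAt β (deriv β t) t := by
    have h1 := (ae_restrict_iff' measurableSet_Icc).1
      (hβ.ae_differentiableWithinAt_real measurableSet_Icc)
    filter_upwards [h1] with t ht htt
    exact ((ht (Ioo_subset_Icc_self htt)).differentiableAt
      (Icc_mem_nhds htt.1 htt.2)).hasDerivAt
  have hdi := intervalIntegrable_of_bound' hab hdm hdb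
  have hβi := eq_integral_of_lipschitz hab hβ hdi hdb hβae
  have hTi : ∀ x ∈ Icc a b, IntervalIntegrable T volume a x := by
    intro x hx
    refine (hTc.mono ?_).intervalIntegrable
    exact uIcc_subset_Icc (left_mem_Icc.2 hab.le) hx
  have hae' : ∀ᵐ t : ℝ, t ≠ b := by
    have : ({b} : Set ℝ)ᶜ ∈ ae (volume : Measure ℝ) := compl_mem_ae_iff.2 (by simp)
    filter_upwards [this] with t ht using ht
  have hβT : ∀ x ∈ Icc a b, β x = β a + ∫ s in a..x, T s := by
    intro x hx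
    rw [hβi x hx]
    congr 1
    refine intervalIntegral.integral_congr_ae ?_
    filter_upwards [hTae, hae'] with t h1 h2 h3
    rw [uIoc_of_le hx.1] at h3
    exact (h1 ⟨h3.1, lt_of_le_of_ne (h3.2.trans hx.2) h2⟩).symm
  have hTc' : ContinuousOn T (Ioo a b) := hTc.mono Ioo_subset_Icc_self
  intro t ht
  have h1 := intervalIntegral.integral_hasDerivAt_right
    (hTi t (Ioo_subset_Icc_self ht))
    (hTc'.stronglyMeasurableAtFilter isOpen_Ioo t ht)
    (hTc'.continuousAt (Ioo_mem_nhds ht.1 ht.2))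
  refine (h1.const_add (β a)).congr_of_eventuallyEq ?_
  filter_upwards [Icc_mem_nhds ht.1 ht.2] with x hx using hβT x hx

/-- From `C^1` to `C^2`. -/
theorem reg_step {E : Type*} [NormedAddCommGroup E] [NormedSpace ℝ E] [FiniteDimensional ℝ E]
    {a b : ℝ} {B : ℝ → Bil E} {β : ℝ → E}
    (hPD : ∀ t ∈ Ioo a b, IsPD (B t)) {Q q : ℝ → E →L[ℝ] ℝ}
    (hTc : ContinuousOn (fun t => ContinuousLinearMap.inverse (B t) (Q t)) (Ioo a b))
    (hβd : ∀ t ∈ Ioo a b, HasDerivAt β (ContinuousLinearMap.inverse (B t) (Q t)) t)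
    (hQd : ∀ t ∈ Ioo a b, HasDerivAt Q (q t) t) (hqc : ContinuousOn q (Ioo a b))
    (hB : ContDiffOn ℝ 1 β (Ioo a b) → ContDiffOn ℝ 1 B (Ioo a b)) :
    ContDiffOn ℝ 1 (deriv β) (Ioo a b) ∧ ContDiffOn ℝ 2 β (Ioo a b) := by
  have hβd' : ∀ t ∈ Ioo a b, deriv β t = ContinuousLinearMap.inverse (B t) (Q t) :=
    fun t ht => (hβd t ht).deriv
  have hβdiff : DifferentiableOn ℝ β (Ioo a b) := fun t ht =>
    (hβd t ht).differentiableAt.differentiableWithinAt
  have hdβc : ContinuousOn (deriv β) (Ioo a b) := hTc.congr hβd'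
  have hC1 : ContDiffOn ℝ 1 β (Ioo a b) := by
    have := (contDiffOn_succ_iff_deriv_of_isOpen (𝕜 := ℝ) (n := 0) (f := β)
      (isOpen_Ioo (a := a) (b := b))).2 ⟨hβdiff, by simp, contDiffOn_zero.2 hdβc⟩
    simpa using this
  have hC1Q : ContDiffOn ℝ 1 Q (Ioo a b) := by
    have := (contDiffOn_succ_iff_deriv_of_isOpen (𝕜 := ℝ) (n := 0) (f := Q)
      (isOpen_Ioo (a := a) (b := b))).2
      ⟨fun t ht => (hQd t ht).differentiableAt.differentiableWithinAt, by simp,
        contDiffOn_zero.2 (hqc.congr fun t ht => (hQd t ht).deriv)⟩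
    simpa using this
  have hC1G := hB hC1
  have hC1T : ContDiffOn ℝ 1 (fun t => ContinuousLinearMap.inverse (B t) (Q t))
      (Ioo a b) := by
    have h1 : ContDiffOn ℝ 1 (fun t => ContinuousLinearMap.inverse (B t))
        (Ioo a b) := by
      intro t ht
      obtain ⟨e, he⟩ := exists_equiv_of_isPD (hPD t ht)
      have h2 : ContDiffAt ℝ 1 (ContinuousLinearMap.inverse (R := ℝ) (M := E)
          (M₂ := E →L[ℝ] ℝ)) (B t) := by
        rw [← he]
        exact contDiffAt_map_inverse e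
      exact h2.comp_contDiffWithinAt t (hC1G t ht)
    exact h1.clm_apply hC1Q
  have hC1d : ContDiffOn ℝ 1 (deriv β) (Ioo a b) := hC1T.congr hβd'
  refine ⟨hC1d, ?_⟩
  have := (contDiffOn_succ_iff_deriv_of_isOpen (𝕜 := ℝ) (n := 1) (f := β)
    (isOpen_Ioo (a := a) (b := b))).2 ⟨hβdiff, by simp, hC1d⟩
  have h2 : (1 : WithTop ℕ∞) + 1 = 2 := by norm_num
  rwa [h2] at this

/-- The covector `u ↦ A u p p`. -/
def ff {E : Type*} [NormedAddCommGroup E] [NormedSpace ℝ E]
    (A : E →L[ℝ] E →L[ℝ] E →L[ℝ] ℝ) (p : E) : E →L[ℝ] ℝ := (A.flip p).flip p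

theorem ff_apply {E : Type*} [NormedAddCommGroup E] [NormedSpace ℝ E]
    (A : E →L[ℝ] E →L[ℝ] E →L[ℝ] ℝ) (p u : E) : ff A p u = A u p p := rfl

theorem continuous_ff (E : Type*) [NormedAddCommGroup E] [NormedSpace ℝ E] :
    Continuous (fun p : (E →L[ℝ] E →L[ℝ] E →L[ℝ] ℝ) × E => ff p.1 p.2) :=
  continuous_psi E

theorem norm_ff_le {E : Type*} [NormedAddCommGroup E] [NormedSpace ℝ E]
    (A : E →L[ℝ] E →L[ℝ] E →L[ℝ] ℝ) (p : E) (M K : ℝ) (hA : ‖A‖ ≤ M) (hp : ‖p‖ ≤ K) :
    ‖ff A p‖ ≤ M * K * K := by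
  have hM : 0 ≤ M := (norm_nonneg _).trans hA
  have hK : 0 ≤ K := (norm_nonneg _).trans hp
  refine ContinuousLinearMap.opNorm_le_bound _ (by positivity) ?_
  intro u
  rw [ff_apply]
  have h1 := (A u p).le_opNorm p
  have h2 := (A u).le_opNorm p
  have h3 := A.le_opNorm u
  calc ‖A u p p‖ ≤ ‖A u p‖ * ‖p‖ := h1
    _ ≤ (‖A u‖ * ‖p‖) * ‖p‖ := by gcongr
    _ ≤ ((‖A‖ * ‖u‖) * ‖p‖) * ‖p‖ := by gcongr
    _ ≤ ((M * ‖u‖) * K) * K := by gcongr
    _ = M * K * K * ‖u‖ := by ring

/-- The Euler-Lagrange equation from the first integral. -/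
theorem el_step {E : Type*} [NormedAddCommGroup E] [NormedSpace ℝ E] [FiniteDimensional ℝ E]
    {U : Set E} {G : E → Bil E} {β : ℝ → E} {a b : ℝ} (hU : IsOpen U)
    (hG : DifferentiableOn ℝ G U) {Q q : ℝ → E →L[ℝ] ℝ}
    {t : ℝ} (ht : t ∈ Ioo a b) (hβU : β t ∈ U) (hβ1 : HasDerivAt β (deriv β t) t)
    (hC1d : ContDiffOn ℝ 1 (deriv β) (Ioo a b)) (hQd : HasDerivAt Q (q t) t)
    (hGQ : ∀ s ∈ Ioo a b, G (β s) (deriv β s) = Q s) :
    fderiv ℝ G (β t) (deriv β t) (deriv β t) + G (β t) (deriv (deriv β) t) = q t := by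
  have hn : Ioo a b ∈ 𝓝 t := Ioo_mem_nhds ht.1 ht.2
  have k1 : HasDerivAt (fun s => G (β s)) (fderiv ℝ G (β t) (deriv β t)) t := by
    have h1 : HasFDerivAt G (fderiv ℝ G (β t)) (β t) :=
      (hG.differentiableAt (hU.mem_nhds hβU)).hasFDerivAt
    exact h1.comp_hasDerivAt t hβ1
  have k2 : HasDerivAt (deriv β) (deriv (deriv β) t) t :=
    ((hC1d.differentiableOn (by simp)).differentiableAt hn).hasDerivAt
  have k3 := k1.clm_apply k2
  have k5 : (fun s => G (β s) (deriv β s)) =ᶠ[𝓝 t] Q := by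
    filter_upwards [hn] with s hs using hGQ s hs
  exact k3.unique (hQd.congr_of_eventuallyEq k5)

theorem meas_comp {X Y E : Type*} [TopologicalSpace X] [TopologicalSpace.PseudoMetrizableSpace X]
    [TopologicalSpace Y] [TopologicalSpace E] {a b : ℝ} {Φ : X → E → Y}
    (hΦ : Continuous (fun p : X × E => Φ p.1 p.2)) {A : ℝ → X} {p : ℝ → E}
    (hA : ContinuousOn A (Ioo a b))
    (hp : AEStronglyMeasurable p (volume.restrict (Ioo a b))) :
    AEStronglyMeasurable (fun t => Φ (A t) (p t)) (volume.restrict (Ioo a b)) :=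
  hΦ.comp_aestronglyMeasurable
      ((hA.aestronglyMeasurable measurableSet_Ioo).prodMk hp)

theorem cont_comp {X Y E : Type*} [TopologicalSpace X] [TopologicalSpace Y] [TopologicalSpace E]
    {a b : ℝ} {Φ : X → E → Y}
    (hΦ : Continuous (fun p : X × E => Φ p.1 p.2)) {A : ℝ → X} {p : ℝ → E}
    (hA : ContinuousOn A (Ioo a b)) (hp : ContinuousOn p (Ioo a b)) :
    ContinuousOn (fun t => Φ (A t) (p t)) (Ioo a b) :=
  hΦ.comp_continuousOn (hA.prodMk hp)

theorem meas_ff {E : Type*} [NormedAddCommGroup E] [NormedSpace ℝ E] [FiniteDimensional ℝ E]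
    {a b : ℝ} {A : ℝ → E →L[ℝ] E →L[ℝ] E →L[ℝ] ℝ} {p : ℝ → E}
    (hA : ContinuousOn A (Ioo a b))
    (hp : AEStronglyMeasurable p (volume.restrict (Ioo a b))) :
    AEStronglyMeasurable (fun t => ff (A t) (p t)) (volume.restrict (Ioo a b)) :=
  meas_comp (continuous_ff E) hA hp

theorem cont_ff {E : Type*} [NormedAddCommGroup E] [NormedSpace ℝ E]
    {a b : ℝ} {A : ℝ → E →L[ℝ] E →L[ℝ] E →L[ℝ] ℝ} {p : ℝ → E}
    (hA : ContinuousOn A (Ioo a b)) (hp : ContinuousOn p (Ioo a b)) :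
    ContinuousOn (fun t => ff (A t) (p t)) (Ioo a b) :=
  cont_comp (continuous_ff E) hA hp

/-- SRD-DBR, in terms of a bounded covector field and so on. -/
theorem dbr_aux {E : Type*} [NormedAddCommGroup E] [NormedSpace ℝ E] [FiniteDimensional ℝ E]
    (hDB1 : S_DB1 E) {U : Set E} {G : E → Bil E} {β : ℝ → E} {a b : ℝ} {K : NNReal}
    (hU : IsOpen U) (hGd : DifferentiableOn ℝ G U) (hG1 : ContDiffOn ℝ 1 G U)
    (hPD : ∀ z ∈ U, IsPD (G z)) (hab : a < b) (hβ : LipschitzOnWith K β (Icc a b))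
    (hβU : ∀ t ∈ Icc a b, β t ∈ U)
    {A : ℝ → E →L[ℝ] E →L[ℝ] E →L[ℝ] ℝ} (hA : ContinuousOn A (Icc a b))
    (hcrit : ∀ V : ℝ → E, ContDiff ℝ ∞ V → HasCompactSupport V → tsupport V ⊆ Ioo a b →
      ∫ t in a..b, (A t (V t) (deriv β t) (deriv β t)
        + 2 * G (β t) (deriv β t) (deriv V t)) = 0) :
    ∀ t ∈ Ioo a b, ContDiffAt ℝ 2 β t ∧
      fderiv ℝ G (β t) (deriv β t) (deriv β t) + G (β t) (deriv (deriv β) t)
        = (1 / 2 : ℝ) • ff (A t) (deriv β t) := by
  have hβc : ContinuousOn β (Icc a b) := hβ.continuousOn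
  have c1 : ContinuousOn (fun t => G (β t)) (Icc a b) := hG1.continuousOn.comp hβc hβU
  obtain ⟨M1, hM1⟩ := isCompact_Icc.exists_bound_of_continuousOn c1
  obtain ⟨M2, hM2⟩ := isCompact_Icc.exists_bound_of_continuousOn hA
  have hM10 : 0 ≤ M1 := (norm_nonneg _).trans (hM1 a (left_mem_Icc.2 hab.le))
  have hdb : ∀ t ∈ Ioo a b, ‖deriv β t‖ ≤ K := fun t ht =>
    norm_deriv_le_of_lipschitzOn (Icc_mem_nhds ht.1 ht.2) hβ
  have hdm : AEStronglyMeasurable (deriv β) (volume.restrict (Ioo a b)) :=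
    (stronglyMeasurable_deriv β).aestronglyMeasurable
  have hA' : ContinuousOn A (Ioo a b) := hA.mono Ioo_subset_Icc_self
  have hfm := meas_ff hA' hdm
  have hfb : ∀ t ∈ Ioo a b, ‖ff (A t) (deriv β t)‖ ≤ M2 * K * K := fun t ht =>
    norm_ff_le _ _ _ _ (hM2 t (Ioo_subset_Icc_self ht)) (hdb t ht)
  have hm1 : AEStronglyMeasurable (fun t => (2 : ℝ) • G (β t) (deriv β t))
      (volume.restrict (Ioo a b)) :=
    (isBoundedBilinearMap_apply.continuous.comp_aestronglyMeasurable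
      (((c1.mono Ioo_subset_Icc_self).aestronglyMeasurable measurableSet_Ioo).prodMk
        hdm)).const_smul (2 : ℝ)
  have hb1 : ∀ t ∈ Ioo a b, ‖(2 : ℝ) • G (β t) (deriv β t)‖ ≤ 2 * (M1 * K) := by
    intro t ht
    rw [norm_smul, Real.norm_of_nonneg (by norm_num : (0 : ℝ) ≤ 2)]
    refine mul_le_mul_of_nonneg_left ?_ (by norm_num)
    exact ((G (β t)).le_opNorm _).trans
      (mul_le_mul (hM1 t (Ioo_subset_Icc_self ht)) (hdb t ht) (norm_nonneg _) hM10)
  obtain ⟨hFc, c, hc⟩ := db_step hDB1 hab hfm hfb hm1 hb1 (by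
    intro V hV hVc hVs
    have j := hcrit V hV hVc hVs
    simp only [ff_apply, smul_apply, smul_eq_mul]
    exact j)
  generalize hf : (fun t => ff (A t) (deriv β t)) = f at hfm hFc
  have hf' : ∀ t, ff (A t) (deriv β t) = f t := fun t => congrFun hf t
  simp only [hf'] at hfb hc hFc ⊢
  have hfi := intervalIntegrable_of_bound' hab hfm hfb
  have hFd : ContinuousOn f (Ioo a b) → ∀ t ∈ Ioo a b,
      HasDerivAt (fun t => ∫ s in a..t, f s) (f t) t := by
    intro hfc t ht
    have hfi' : IntervalIntegrable f volume a t := by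
      refine hfi.mono_set ?_
      rw [uIcc_of_le hab.le]
      exact uIcc_subset_Icc (left_mem_Icc.2 hab.le) (Ioo_subset_Icc_self ht)
    exact intervalIntegral.integral_hasDerivAt_right hfi'
      (hfc.stronglyMeasurableAtFilter isOpen_Ioo t ht)
      (hfc.continuousAt (Ioo_mem_nhds ht.1 ht.2))
  generalize hF : (fun t => ∫ s in a..t, f s) = F at hFc hFd
  have hF' : ∀ t, (∫ s in a..t, f s) = F t := fun t => congrFun hF t
  simp only [hF'] at hc
  have hQc : ContinuousOn (fun t => (1 / 2 : ℝ) • (F t + c)) (Icc a b) :=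
    (hFc.add continuousOn_const).const_smul (1 / 2 : ℝ)
  obtain ⟨hTc, hTG, hβd⟩ := c1_step hab (B := fun t => G (β t)) (K := K) hβ c1
    (fun t ht => hPD _ (hβU t ht)) (Q := fun t => (1 / 2 : ℝ) • (F t + c)) hQc (by
      filter_upwards [hc] with t ht htt
      rw [← ht htt, smul_smul]
      norm_num)
  have hdβc : ContinuousOn (deriv β) (Ioo a b) :=
    (hTc.mono Ioo_subset_Icc_self).congr fun t ht => (hβd t ht).deriv
  have hfc : ContinuousOn f (Ioo a b) := by
    rw [← hf]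
    exact cont_ff hA' hdβc
  have hQd : ∀ t ∈ Ioo a b,
      HasDerivAt (fun t => (1 / 2 : ℝ) • (F t + c)) ((1 / 2 : ℝ) • f t) t := fun t ht =>
    ((hFd hfc t ht).add_const c).const_smul (1 / 2 : ℝ)
  obtain ⟨hC1d, hC2⟩ := reg_step (B := fun t => G (β t)) (β := β)
    (fun t ht => hPD _ (hβU t (Ioo_subset_Icc_self ht)))
    (Q := fun t => (1 / 2 : ℝ) • (F t + c)) (q := fun t => (1 / 2 : ℝ) • f t)
    (hTc.mono Ioo_subset_Icc_self) hβd hQd (hfc.const_smul (1 / 2 : ℝ))
    (fun hC1 => hG1.comp hC1 fun t ht => hβU t (Ioo_subset_Icc_self ht))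
  intro t ht
  refine ⟨hC2.contDiffAt (Ioo_mem_nhds ht.1 ht.2), ?_⟩
  refine el_step hU hGd (Q := fun t => (1 / 2 : ℝ) • (F t + c))
    (q := fun t => (1 / 2 : ℝ) • f t) ht (hβU t (Ioo_subset_Icc_self ht)) ?_ hC1d
    (hQd t ht) ?_
  · rw [(hβd t ht).deriv]
    exact hβd t ht
  · intro s hs
    rw [(hβd s hs).deriv]
    exact hTG s (Ioo_subset_Icc_self hs)

/-- SRD-DBR. -/
theorem dbr (E : Type*) [NormedAddCommGroup E] [NormedSpace ℝ E] [FiniteDimensional ℝ E]
    (hDB1 : S_DB1 E) : S_DBR E := by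
  intro U G β a b K hU hG hPD hab hβ hβU hcrit t ht
  have hDGc : ContinuousOn (fderiv ℝ G) U := hG.continuousOn_fderiv_of_isOpen hU (by simp)
  have c2 : ContinuousOn (fun t => fderiv ℝ G (β t)) (Icc a b) :=
    hDGc.comp hβ.continuousOn hβU
  obtain ⟨h1, h2⟩ := dbr_aux hDB1 hU (hG.differentiableOn (by simp)) (hG.of_le (by simp))
    hPD hab hβ hβU c2 hcrit t ht
  refine ⟨h1, fun u => ?_⟩
  have h3 := congrArg (fun L : E →L[ℝ] ℝ => L u) h2
  simp only [add_apply, smul_apply, smul_eq_mul, ff_apply] at h3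
  linarith

end Pool.Agent.Helper97.SRD
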